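import Pool.Agent.Helper5.T7.Deg

set_option autoImplicit false

/-!
T7 (odd order), counting the spread sets of edges, and the injection into the graphs with one more vertex.
-/

open Finset

namespace Pool.Agent.Helper5.T7

open Pool.Agent.Helper15.T6 (Reg ChD)

variable {V : Type} [Fintype V]

open Classical in
/-- The spread sets of `h` edges. -/
noncomputable def SF (G : SimpleGraph V) (h : ℕ) : Finset (Finset (Sym2 V)) :=
  univ.filter (fun F => F.card = h ∧ (∀ e ∈ F, e ∈ G.edgeSet) ∧ Spread G (F : Set (Sym2 V)))

open Classical in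
/-- The edges. -/
noncomputable def ef (G : SimpleGraph V) : Finset (Sym2 V) := univ.filter (fun e => e ∈ G.edgeSet)

open Classical in
theorem deg_of {d : ℕ} {G : SimpleGraph V} (h : ∀ v, (G.neighborSet v).ncard = d) (v : V) : G.degree v = d := by
  rw [← h v, ← SimpleGraph.card_neighborSet_eq_degree, Set.ncard_eq_toFinset_card', Set.toFinset_card]

open Classical in
theorem two_card_ef {d : ℕ} {G : SimpleGraph V} (h : ∀ v, (G.neighborSet v).ncard = d) :
    2 * (ef G).card = Fintype.card V * d := by
  have h1 := G.sum_degrees_eq_twice_card_edges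
  have h2 : ef G = G.edgeFinset := by ext e; simp [ef]
  rw [h2, ← h1]
  simp [deg_of h]

open Classical in
/-- Edges close to a given edge. -/
theorem near_card {d : ℕ} {G : SimpleGraph V} (h : ∀ v, (G.neighborSet v).ncard = d) (f : Sym2 V) :
    ((ef G).filter (fun e => ∃ u ∈ e, ∃ v ∈ f, u = v ∨ G.Adj u v)).card ≤ 2 * d * (d + 1) := by
  induction f using Sym2.ind with
  | _ a b =>
    have hball : ∀ x : V, (insert x (G.neighborFinset x)).card ≤ d + 1 := by
      intro x
      refine (Finset.card_insert_le _ _).trans ?_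
      rw [SimpleGraph.card_neighborFinset_eq_degree, deg_of h]
    have hsub : (ef G).filter (fun e => ∃ u ∈ e, ∃ v ∈ s(a, b), u = v ∨ G.Adj u v) ⊆
        (insert a (G.neighborFinset a) ∪ insert b (G.neighborFinset b)).biUnion (fun u => G.incidenceFinset u) := by
      intro e he
      rw [Finset.mem_filter] at he
      obtain ⟨he1, u, hu, v, hv, huv⟩ := he
      rw [Finset.mem_biUnion]
      refine ⟨u, ?_, ?_⟩
      · rw [Finset.mem_union, Finset.mem_insert, Finset.mem_insert, SimpleGraph.mem_neighborFinset,
          SimpleGraph.mem_neighborFinset]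
        rcases Sym2.mem_iff.1 hv with rfl | rfl
        · left
          rcases huv with rfl | h'
          · exact Or.inl rfl
          · exact Or.inr h'.symm
        · right
          rcases huv with rfl | h'
          · exact Or.inl rfl
          · exact Or.inr h'.symm
      · rw [SimpleGraph.mem_incidenceFinset]
        exact ⟨by simpa [ef] using he1, hu⟩
    refine (Finset.card_le_card hsub).trans ?_
    refine Finset.card_biUnion_le.trans ?_
    have h1 : ∀ u ∈ (insert a (G.neighborFinset a) ∪ insert b (G.neighborFinset b)),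
        (G.incidenceFinset u).card ≤ d := by
      intro u _
      rw [SimpleGraph.card_incidenceFinset_eq_degree, deg_of h]
    refine (Finset.sum_le_card_nsmul _ _ _ h1).trans ?_
    rw [smul_eq_mul]
    have h2 : (insert a (G.neighborFinset a) ∪ insert b (G.neighborFinset b)).card ≤ 2 * (d + 1) := by
      refine (Finset.card_union_le _ _).trans ?_
      have := hball a
      have := hball b
      omega
    calc _ ≤ 2 * (d + 1) * d := Nat.mul_le_mul_right _ h2
      _ = 2 * d * (d + 1) := by ring

omit [Fintype V] in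
theorem spread_insert {G : SimpleGraph V} {F : Set (Sym2 V)} (hF : Spread G F) {e : Sym2 V}
    (he : ∀ f ∈ F, ∀ u ∈ e, ∀ v ∈ f, ¬ (u = v ∨ G.Adj u v)) : Spread G (insert e F) := by
  intro x hx y hy hxy u hu v hv
  rw [Set.mem_insert_iff] at hx hy
  rcases hx with rfl | hx <;> rcases hy with rfl | hy
  · exact absurd rfl hxy
  · have := he y hy u hu v hv
    push Not at this
    exact this
  · have := he x hx v hv u hu
    push Not at this
    exact ⟨fun h => this.1 h.symm, fun h => this.2 h.symm⟩
  · exact hF x hx y hy hxy u hu v hv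

open Classical in
theorem SF_step {d : ℕ} {G : SimpleGraph V} (hreg : ∀ v, (G.neighborSet v).ncard = d) (h : ℕ) :
    (SF G h).card * ((ef G).card - h * (2 * d * (d + 1))) ≤ (SF G (h + 1)).card * (h + 1) := by
  let good : Finset (Sym2 V) → Finset (Sym2 V) := fun F =>
    (ef G).filter (fun e => ∀ f ∈ F, ∀ u ∈ e, ∀ v ∈ f, ¬ (u = v ∨ G.Adj u v))
  have hgood : ∀ F ∈ SF G h, (ef G).card - h * (2 * d * (d + 1)) ≤ (good F).card := by
    intro F hF
    simp only [SF, Finset.mem_filter, Finset.mem_univ, true_and] at hF
    have h1 : ef G ⊆ good F ∪ F.biUnion (fun f => (ef G).filter (fun e => ∃ u ∈ e, ∃ v ∈ f, u = v ∨ G.Adj u v)) := by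
      intro e he
      rw [Finset.mem_union]
      by_cases hg : ∀ f ∈ F, ∀ u ∈ e, ∀ v ∈ f, ¬ (u = v ∨ G.Adj u v)
      · exact Or.inl (Finset.mem_filter.2 ⟨he, hg⟩)
      · right
        push Not at hg
        obtain ⟨f, hf, u, hu, v, hv, huv⟩ := hg
        exact Finset.mem_biUnion.2 ⟨f, hf, Finset.mem_filter.2 ⟨he, u, hu, v, hv, by tauto⟩⟩
    have h2 := (Finset.card_le_card h1).trans (Finset.card_union_le _ _)
    have h3 : (F.biUnion (fun f => (ef G).filter (fun e => ∃ u ∈ e, ∃ v ∈ f, u = v ∨ G.Adj u v))).card ≤
        h * (2 * d * (d + 1)) := by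
      refine Finset.card_biUnion_le.trans ?_
      refine (Finset.sum_le_card_nsmul _ _ _ (fun f _ => near_card hreg f)).trans ?_
      rw [hF.1, smul_eq_mul]
    omega
  -- the pairs
  have hL : (SF G h).card * ((ef G).card - h * (2 * d * (d + 1))) ≤ ((SF G h).sigma good).card := by
    rw [Finset.card_sigma]
    exact Finset.card_nsmul_le_sum _ _ _ hgood
  have hR : ((SF G (h + 1)).sigma (fun F => F)).card = (SF G (h + 1)).card * (h + 1) := by
    rw [Finset.card_sigma]
    rw [Finset.sum_const_nat (m := h + 1)]
    intro F hF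
    simp only [SF, Finset.mem_filter, Finset.mem_univ, true_and] at hF
    exact hF.1
  rw [← hR]
  refine hL.trans ?_
  have hnot : ∀ F e, e ∈ good F → e ∉ F := by
    intro F e he heF
    have h1 := (Finset.mem_filter.1 he).2 e heF
    induction e using Sym2.ind with
    | _ a b => exact h1 a (Sym2.mem_mk_left _ _) a (Sym2.mem_mk_left _ _) (Or.inl rfl)
  refine Finset.card_le_card_of_injOn (fun p => ⟨insert p.2 p.1, p.2⟩) ?_ ?_
  · rintro ⟨F, e⟩ hp
    rw [Finset.mem_coe, Finset.mem_sigma] at hp
    obtain ⟨hF, he⟩ := hp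
    dsimp only at hF he
    rw [Finset.mem_coe, Finset.mem_sigma]
    dsimp only
    refine ⟨?_, Finset.mem_insert_self _ _⟩
    have hF' := hF
    simp only [SF, Finset.mem_filter, Finset.mem_univ, true_and] at hF' ⊢
    refine ⟨?_, ?_, ?_⟩
    · rw [Finset.card_insert_of_notMem (hnot F e he), hF'.1]
    · intro x hx
      rcases Finset.mem_insert.1 hx with rfl | hx
      · have := (Finset.mem_filter.1 he).1
        simpa [ef] using this
      · exact hF'.2.1 x hx
    · rw [Finset.coe_insert]
      exact spread_insert hF'.2.2 (fun f hf => (Finset.mem_filter.1 he).2 f hf)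
  · rintro ⟨F, e⟩ hp ⟨F', e'⟩ hp' heq
    rw [Finset.mem_coe, Finset.mem_sigma] at hp hp'
    dsimp only at hp hp' heq
    have h1 := congrArg Sigma.snd heq
    dsimp only at h1
    have h2 := congrArg Sigma.fst heq
    dsimp only at h2
    subst h1
    have h3 : F = F' := by
      have := congrArg (fun S => Finset.erase S e) h2
      rwa [Finset.erase_insert (hnot F e hp.2), Finset.erase_insert (hnot F' e hp'.2)] at this
    rw [h3]

open Classical in
theorem SF_zero (G : SimpleGraph V) : (SF G 0).card = 1 := by
  have : SF G 0 = {∅} := by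
    ext F
    simp only [SF, Finset.mem_filter, Finset.mem_univ, true_and, Finset.mem_singleton, Finset.card_eq_zero]
    constructor
    · exact fun h => h.1
    · rintro rfl
      exact ⟨rfl, by simp, by intro e he; simp at he⟩
  rw [this, Finset.card_singleton]

theorem SF_lower {d : ℕ} {G : SimpleGraph V} (hreg : ∀ v, (G.neighborSet v).ncard = d) (k h : ℕ) (hk : k ≤ h) :
    ((ef G).card - h * (2 * d * (d + 1))) ^ k ≤ (SF G k).card * k.factorial := by
  induction k with
  | zero => simp [SF_zero]
  | succ k ih =>
    have h1 := ih (by omega)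
    have h2 := SF_step hreg k
    have h3 : (ef G).card - h * (2 * d * (d + 1)) ≤ (ef G).card - k * (2 * d * (d + 1)) :=
      Nat.sub_le_sub_left (Nat.mul_le_mul_right _ (by omega)) _
    calc ((ef G).card - h * (2 * d * (d + 1))) ^ (k + 1)
        = ((ef G).card - h * (2 * d * (d + 1))) ^ k * ((ef G).card - h * (2 * d * (d + 1))) := pow_succ _ _
      _ ≤ ((SF G k).card * k.factorial) * ((ef G).card - k * (2 * d * (d + 1))) := Nat.mul_le_mul h1 h3
      _ = ((SF G k).card * ((ef G).card - k * (2 * d * (d + 1)))) * k.factorial := by ring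
      _ ≤ ((SF G (k + 1)).card * (k + 1)) * k.factorial := Nat.mul_le_mul_right _ h2
      _ = (SF G (k + 1)).card * (k + 1).factorial := by rw [Nat.factorial_succ]; ring

end Pool.Agent.Helper5.T7
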