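import Pool.Agent.Helper15.T6.Defs

set_option autoImplicit false

/-!
T7 (odd order), colouring part: if `F` is a spread set of edges of `G` and the graph obtained from `G` by deleting `F`
and joining a new vertex to the ends of `F` is `d`-edge-choosable, then `G` is `(d + 1)`-edge-choosable.
-/

open Finset

namespace Pool.Agent.Helper5.T7

open Pool.Agent.Helper15.T6 (Reg ChD)

variable {V : Type}

/-- `G` without the edges in `F`, with a new vertex `none` joined to the ends of the edges in `F`. -/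
def ins (G : SimpleGraph V) (F : Set (Sym2 V)) : SimpleGraph (Option V) where
  Adj x y := (∃ u v, x = some u ∧ y = some v ∧ G.Adj u v ∧ s(u, v) ∉ F) ∨
    (∃ u, x = some u ∧ y = none ∧ ∃ e ∈ F, u ∈ e) ∨ (∃ u, x = none ∧ y = some u ∧ ∃ e ∈ F, u ∈ e)
  symm := ⟨by
    rintro x y (⟨u, v, rfl, rfl, h, h'⟩ | ⟨u, rfl, rfl, h⟩ | ⟨u, rfl, rfl, h⟩)
    · exact Or.inl ⟨v, u, rfl, rfl, h.symm, by rwa [Sym2.eq_swap]⟩
    · exact Or.inr (Or.inr ⟨u, rfl, rfl, h⟩)
    · exact Or.inr (Or.inl ⟨u, rfl, rfl, h⟩)⟩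
  loopless := ⟨by
    rintro x (⟨u, v, rfl, h1, h, _⟩ | ⟨u, h1, h2, _⟩ | ⟨u, h1, h2, _⟩)
    · simp only [Option.some.injEq] at h1
      subst h1
      exact G.loopless.irrefl _ h
    · rw [h1] at h2; simp at h2
    · rw [h1] at h2; simp at h2⟩

theorem ins_some_some (G : SimpleGraph V) (F : Set (Sym2 V)) (u v : V) :
    (ins G F).Adj (some u) (some v) ↔ G.Adj u v ∧ s(u, v) ∉ F := by
  constructor
  · rintro (⟨u', v', h1, h2, h⟩ | ⟨u', h1, h2, _⟩ | ⟨u', h1, h2, _⟩)
    · simp only [Option.some.injEq] at h1 h2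
      subst h1 h2
      exact h
    · simp at h2
    · simp at h1
  · intro h
    exact Or.inl ⟨u, v, rfl, rfl, h⟩

theorem ins_none_some (G : SimpleGraph V) (F : Set (Sym2 V)) (v : V) :
    (ins G F).Adj none (some v) ↔ ∃ e ∈ F, v ∈ e := by
  constructor
  · rintro (⟨u', v', h1, h2, h⟩ | ⟨u', h1, h2, _⟩ | ⟨u', h1, h2, h⟩)
    · simp at h1
    · simp at h1
    · simp only [Option.some.injEq] at h2
      subst h2
      exact h
  · intro h
    exact Or.inr (Or.inr ⟨v, rfl, rfl, h⟩)

theorem ins_some_none (G : SimpleGraph V) (F : Set (Sym2 V)) (v : V) :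
    (ins G F).Adj (some v) none ↔ ∃ e ∈ F, v ∈ e := by
  rw [SimpleGraph.adj_comm, ins_none_some]

/-- The edges in `F` are pairwise disjoint and no edge of `G` touches two of them. -/
def Spread (G : SimpleGraph V) (F : Set (Sym2 V)) : Prop :=
  ∀ e ∈ F, ∀ f ∈ F, e ≠ f → ∀ u ∈ e, ∀ v ∈ f, u ≠ v ∧ ¬ G.Adj u v

theorem chD_succ {d : ℕ} {G : SimpleGraph V} {F : Set (Sym2 V)} (hs : Spread G F)
    (h : ChD d (ins G F)) : ChD (d + 1) G := by
  classical
  intro L hL
  -- colours of the edges in `F`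
  have hne : ∀ e : G.edgeSet, (L e).Nonempty := fun e => by
    rw [← Finset.card_pos]; have := hL e; omega
  choose c hc using hne
  -- the edges of `H` that come from `G`
  have hmap : ∀ e : G.edgeSet, (e : Sym2 V) ∉ F → (e : Sym2 V).map some ∈ (ins G F).edgeSet := by
    rintro ⟨e, he⟩ heF
    induction e using Sym2.ind with
    | _ u v =>
      rw [Sym2.map_mk, SimpleGraph.mem_edgeSet, ins_some_some]
      exact ⟨he, heF⟩
  -- the colours to avoid
  let S : G.edgeSet → Finset ℕ := fun e =>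
    if hh : ∃ f : G.edgeSet, (f : Sym2 V) ∈ F ∧ ∃ u, u ∈ (e : Sym2 V) ∧ u ∈ (f : Sym2 V) then {c hh.choose} else ∅
  have hScard : ∀ e, (S e).card ≤ 1 := by
    intro e
    simp only [S]
    split_ifs <;> simp
  have hSmem : ∀ e f : G.edgeSet, (e : Sym2 V) ∉ F → (f : Sym2 V) ∈ F →
      (∃ u, u ∈ (e : Sym2 V) ∧ u ∈ (f : Sym2 V)) → c f ∈ S e := by
    intro e f he hf hu
    have hh : ∃ f : G.edgeSet, (f : Sym2 V) ∈ F ∧ ∃ u, u ∈ (e : Sym2 V) ∧ u ∈ (f : Sym2 V) := ⟨f, hf, hu⟩
    simp only [S]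
    rw [dif_pos hh]
    obtain ⟨h1, u', h2, h3⟩ := hh.choose_spec
    obtain ⟨u, hu1, hu2⟩ := hu
    have : f = hh.choose := by
      by_contra hne
      have hne' : (f : Sym2 V) ≠ (hh.choose : Sym2 V) := fun h' => hne (Subtype.ext h')
      have hsp := hs f hf _ h1 hne' u hu2 u' h3
      -- `u` and `u'` are the two ends of `e`
      have hadj : G.Adj u u' := by
        have heq : (e : Sym2 V) = s(u, u') := by
          have := (Sym2.mem_and_mem_iff hsp.1).1 ⟨hu1, h2⟩
          exact this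
        have := e.2
        rw [heq, SimpleGraph.mem_edgeSet] at this
        exact this
      exact hsp.2 hadj
    rw [← this]
    exact Finset.mem_singleton_self _
  -- the lists of `H`
  let L' : (ins G F).edgeSet → Finset ℕ := fun e' =>
    if hh : ∃ e : G.edgeSet, (e : Sym2 V).map some = (e' : Sym2 (Option V)) then L hh.choose \ S hh.choose
    else Finset.range d
  have hL' : ∀ e', d ≤ (L' e').card := by
    intro e'
    simp only [L']
    split_ifs with hh
    · have h1 := hL hh.choose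
      have h2 := hScard hh.choose
      have h3 := Finset.le_card_sdiff (S hh.choose) (L hh.choose)
      omega
    · simp
  obtain ⟨φ, hφ1, hφ2⟩ := h L' hL'
  have hinj : Function.Injective (Sym2.map (some : V → Option V)) :=
    Sym2.map.injective (Option.some_injective V)
  have hL'eq : ∀ (e : G.edgeSet) (he : (e : Sym2 V) ∉ F), L' ⟨(e : Sym2 V).map some, hmap e he⟩ = L e \ S e := by
    intro e he
    simp only [L']
    have hh : ∃ e1 : G.edgeSet, (e1 : Sym2 V).map some = (e : Sym2 V).map some := ⟨e, rfl⟩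
    rw [dif_pos hh]
    have : hh.choose = e := Subtype.ext (hinj hh.choose_spec)
    rw [this]
  refine ⟨fun e => if he : (e : Sym2 V) ∈ F then c e else φ ⟨(e : Sym2 V).map some, hmap e he⟩, ?_, ?_⟩
  · intro e
    dsimp only
    split_ifs with he
    · exact hc e
    · have := hφ1 ⟨(e : Sym2 V).map some, hmap e he⟩
      rw [hL'eq e he] at this
      exact (Finset.mem_sdiff.1 this).1
  · intro e e' hadj
    obtain ⟨hne, u, hu, hu'⟩ := hadj
    have hne' : (e : Sym2 V) ≠ (e' : Sym2 V) := fun h' => hne (Subtype.ext h')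
    have hu1 : u ∈ (e : Sym2 V) := hu
    have hu2 : u ∈ (e' : Sym2 V) := hu'
    dsimp only
    split_ifs with he he' he'
    · exact absurd rfl (hs e he e' he' hne' u hu1 u hu2).1
    · have h1 := hφ1 ⟨(e' : Sym2 V).map some, hmap e' he'⟩
      rw [hL'eq e' he'] at h1
      intro h2
      rw [← h2] at h1
      exact (Finset.mem_sdiff.1 h1).2 (hSmem e' e he' he ⟨u, hu2, hu1⟩)
    · have h1 := hφ1 ⟨(e : Sym2 V).map some, hmap e he⟩
      rw [hL'eq e he] at h1
      intro h2
      rw [h2] at h1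
      exact (Finset.mem_sdiff.1 h1).2 (hSmem e e' he he' ⟨u, hu1, hu2⟩)
    · apply hφ2
      refine ⟨fun h' => hne' (hinj (congrArg Subtype.val h')), some u, ?_, ?_⟩
      · show some u ∈ (e : Sym2 V).map some
        exact Sym2.mem_map.2 ⟨u, hu1, rfl⟩
      · show some u ∈ (e' : Sym2 V).map some
        exact Sym2.mem_map.2 ⟨u, hu2, rfl⟩

end Pool.Agent.Helper5.T7
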