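import Pool.Agent.Helper5.T7.Col

set_option autoImplicit false

/-!
T7 (odd order), degrees of the graph with the new vertex.
-/

open Finset

namespace Pool.Agent.Helper5.T7

open Pool.Agent.Helper15.T6 (Reg ChD)

variable {V : Type}

theorem ncard_cov {V : Type} [Finite V] (F : Finset (Sym2 V)) (hd : ∀ e ∈ F, ¬ e.IsDiag)
    (hp : ∀ e ∈ F, ∀ f ∈ F, e ≠ f → ∀ u ∈ e, u ∉ f) : {v : V | ∃ e ∈ F, v ∈ e}.ncard = 2 * F.card := by
  classical
  induction F using Finset.induction_on with
  | empty => simp
  | insert e F he ih =>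
    have h1 : {v : V | ∃ e' ∈ insert e F, v ∈ e'} = {v : V | v ∈ e} ∪ {v : V | ∃ e ∈ F, v ∈ e} := by
      ext v
      simp [Finset.mem_insert]
    have h2 : Disjoint {v : V | v ∈ e} {v : V | ∃ e ∈ F, v ∈ e} := by
      rw [Set.disjoint_left]
      rintro v hv ⟨f, hf, hvf⟩
      exact hp e (Finset.mem_insert_self _ _) f (Finset.mem_insert_of_mem hf)
        (fun h => he (h ▸ hf)) v hv hvf
    have h3 : {v : V | v ∈ e}.ncard = 2 := by
      have hde := hd e (Finset.mem_insert_self _ _)
      induction e using Sym2.ind with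
      | _ a b =>
        have hab : a ≠ b := by simpa using hde
        have : {v : V | v ∈ s(a, b)} = {a, b} := by
          ext v; simp [Sym2.mem_iff]
        rw [this, Set.ncard_pair hab]
    rw [h1, Set.ncard_union_eq h2 (Set.toFinite _) (Set.toFinite _), h3,
      ih (fun f hf => hd f (Finset.mem_insert_of_mem hf))
        (fun f hf f' hf' => hp f (Finset.mem_insert_of_mem hf) f' (Finset.mem_insert_of_mem hf')),
      Finset.card_insert_of_notMem he]
    ring

theorem nbr_none (G : SimpleGraph V) (F : Set (Sym2 V)) :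
    (ins G F).neighborSet none = some '' {v : V | ∃ e ∈ F, v ∈ e} := by
  ext x
  rw [SimpleGraph.mem_neighborSet]
  cases x with
  | none => simp
  | some v => rw [ins_none_some]; simp

theorem deg_none [Finite V] (G : SimpleGraph V) (F : Finset (Sym2 V)) (hF : ∀ e ∈ F, e ∈ G.edgeSet)
    (hs : Spread G (F : Set (Sym2 V))) : ((ins G (F : Set (Sym2 V))).neighborSet none).ncard = 2 * F.card := by
  rw [nbr_none, Set.ncard_image_of_injective _ (Option.some_injective V)]
  have := ncard_cov F (fun e he => G.not_isDiag_of_mem_edgeSet (hF e he))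
    (fun e he f hf hne u hu huf => (hs e he f hf hne u hu u huf).1 rfl)
  simpa using this

theorem nbr_some_out (G : SimpleGraph V) (F : Set (Sym2 V)) (u : V) (hu : ¬ ∃ e ∈ F, u ∈ e) :
    (ins G F).neighborSet (some u) = some '' (G.neighborSet u) := by
  ext x
  rw [SimpleGraph.mem_neighborSet]
  cases x with
  | none =>
    rw [ins_some_none]
    simp only [Set.mem_image, SimpleGraph.mem_neighborSet, reduceCtorEq, and_false, exists_false, iff_false]
    exact hu
  | some v =>
    rw [ins_some_some]
    simp only [Set.mem_image, SimpleGraph.mem_neighborSet, Option.some.injEq, exists_eq_right,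
      and_iff_left_iff_imp]
    intro _ h
    exact hu ⟨_, h, Sym2.mem_mk_left _ _⟩

theorem nbr_some_in (G : SimpleGraph V) (F : Set (Sym2 V)) (hs : Spread G F) (u v : V) (he : s(u, v) ∈ F) :
    (ins G F).neighborSet (some u) = insert none (some '' (G.neighborSet u \ {v})) := by
  ext x
  rw [SimpleGraph.mem_neighborSet]
  cases x with
  | none =>
    rw [ins_some_none]
    simp only [Set.mem_insert_iff, true_or, iff_true]
    exact ⟨_, he, Sym2.mem_mk_left _ _⟩
  | some w =>
    rw [ins_some_some]
    simp only [Set.mem_insert_iff, reduceCtorEq, false_or, Set.mem_image, Set.mem_sdiff,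
      SimpleGraph.mem_neighborSet, Set.mem_singleton_iff, Option.some.injEq, exists_eq_right]
    constructor
    · rintro ⟨h1, h2⟩
      refine ⟨h1, fun h => h2 (h ▸ he)⟩
    · rintro ⟨h1, h2⟩
      refine ⟨h1, fun h => h2 ?_⟩
      by_contra hne
      have hne' : s(u, w) ≠ s(u, v) := by
        intro h'
        exact hne (Sym2.congr_right.1 h')
      exact (hs _ h _ he hne' u (Sym2.mem_mk_left _ _) u (Sym2.mem_mk_left _ _)).1 rfl

theorem deg_some [Finite V] (G : SimpleGraph V) (F : Finset (Sym2 V)) (hF : ∀ e ∈ F, e ∈ G.edgeSet)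
    (hs : Spread G (F : Set (Sym2 V))) (u : V) :
    ((ins G (F : Set (Sym2 V))).neighborSet (some u)).ncard = (G.neighborSet u).ncard := by
  by_cases hu : ∃ e ∈ (F : Set (Sym2 V)), u ∈ e
  · obtain ⟨e, he, hue⟩ := hu
    obtain ⟨v, rfl⟩ := Sym2.mem_iff_exists.1 hue
    have hadj : G.Adj u v := by
      have := hF _ he
      rwa [SimpleGraph.mem_edgeSet] at this
    rw [nbr_some_in G _ hs u v he, Set.ncard_insert_of_notMem (by simp) (Set.toFinite _),
      Set.ncard_image_of_injective _ (Option.some_injective V),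
      Set.ncard_sdiff_singleton_add_one (by simpa using hadj) (Set.toFinite _)]
  · rw [nbr_some_out G _ u hu, Set.ncard_image_of_injective _ (Option.some_injective V)]

theorem reg_ins [Fintype V] {d : ℕ} (G : SimpleGraph V) (F : Finset (Sym2 V)) (hG : Reg d 3 G)
    (hF : ∀ e ∈ F, e ∈ G.edgeSet) (hs : Spread G (F : Set (Sym2 V))) (hc : 2 * F.card = d) :
    Reg d 3 (ins G (F : Set (Sym2 V))) := by
  refine ⟨?_, fun u p hp => hp.three_le_length⟩
  intro v
  cases v with
  | none => rw [deg_none G F hF hs, hc]
  | some u => rw [deg_some G F hF hs u]; exact hG.1 u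

end Pool.Agent.Helper5.T7
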