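import Pool.Agent.Helper5.T7.Cnt

set_option autoImplicit false

/-!
T7 (odd order): deletion of the vertex `none` from a graph on `Option V` of girth at least `4`, its neighbours being joined
by a perfect matching.
-/

open Finset

namespace Pool.Agent.Helper5.T7

open Pool.Agent.Helper15.T6 (Reg ChD)
open Pool.Agent.Helper15.T4 (IsPM)
open SimpleGraph

section Cycle

variable {W : Type} {G : SimpleGraph W}

/-- A cycle through the edge `s(u, v)` starting at `u`. -/
theorem cycle_at {u v : W} (p : G.Walk u u) (hp : p.IsCycle) (he : s(u, v) ∈ p.edges) :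
    ∃ q : G.Walk v u, q.IsPath ∧ s(u, v) ∉ q.edges ∧ q.length + 1 = p.length := by
  cases p with
  | nil => exact absurd hp (by simp)
  | @cons _ y _ h r =>
    rw [Walk.cons_isCycle_iff] at hp
    obtain ⟨hr, hnr⟩ := hp
    rw [Walk.edges_cons, List.mem_cons] at he
    rcases he with he | he
    · have hvy : v = y := Sym2.congr_right.1 he
      subst hvy
      exact ⟨r, hr, hnr, by simp⟩
    · -- the edge is the last one of `r`
      have hrr : r.reverse.IsPath := (Walk.isPath_reverse_iff r).2 hr
      have her : s(u, v) ∈ r.reverse.edges := by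
        rw [Walk.edges_reverse, List.mem_reverse]; exact he
      have hlen : r.reverse.length = r.length := Walk.length_reverse r
      have hnr' : s(u, y) ∉ r.reverse.edges := by
        rw [Walk.edges_reverse, List.mem_reverse]; exact hnr
      generalize r.reverse = t at hrr her hlen hnr'
      cases t with
      | nil => simp at her
      | @cons _ z _ h' t' =>
        rw [Walk.cons_isPath_iff] at hrr
        rw [Walk.edges_cons, List.mem_cons] at her
        rcases her with her | her
        · have hvz : v = z := Sym2.congr_right.1 her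
          subst hvz
          refine ⟨t'.concat h.symm, hrr.1.concat hrr.2 h.symm, ?_, ?_⟩
          · rw [Walk.edges_concat, List.concat_eq_append, List.mem_append]
            rintro (h1 | h1)
            · exact hrr.2 (t'.fst_mem_support_of_mem_edges h1)
            · rw [List.mem_singleton] at h1
              apply hnr'
              rw [Walk.edges_cons, List.mem_cons]
              left
              rw [h1, Sym2.eq_swap]
          · rw [Walk.length_concat, Walk.length_cons, ← hlen, Walk.length_cons]
        · exact absurd (t'.fst_mem_support_of_mem_edges her) hrr.2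

theorem cycle_edge {x u v : W} (p : G.Walk x x) (hp : p.IsCycle) (he : s(u, v) ∈ p.edges) :
    ∃ q : G.Walk v u, q.IsPath ∧ s(u, v) ∉ q.edges ∧ q.length + 1 = p.length := by
  classical
  have hu : u ∈ p.support := p.fst_mem_support_of_mem_edges he
  have h1 : (p.rotate u hu).IsCycle := hp.rotate hu
  have h2 : s(u, v) ∈ (p.rotate u hu).edges := (p.rotate_edges u hu).mem_iff.2 he
  obtain ⟨q, hq1, hq2, hq3⟩ := cycle_at _ h1 h2
  exact ⟨q, hq1, hq2, by rw [hq3, Walk.length_rotate]⟩

end Cycle

variable {V : Type}

/-- The graph without the vertex `none`, with the edges in `ρ` added. -/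
def del (H : SimpleGraph (Option V)) (ρ : Set (Sym2 V)) : SimpleGraph V where
  Adj u v := H.Adj (some u) (some v) ∨ (s(u, v) ∈ ρ ∧ u ≠ v)
  symm := ⟨by
    rintro u v (h | ⟨h, h'⟩)
    · exact Or.inl h.symm
    · exact Or.inr ⟨by rwa [Sym2.eq_swap], h'.symm⟩⟩
  loopless := ⟨by
    rintro u (h | ⟨_, h⟩)
    · exact H.loopless.irrefl _ h
    · exact h rfl⟩

theorem no_triangle {W : Type} {H : SimpleGraph W} (hg : ∀ (u : W) (p : H.Walk u u), p.IsCycle → 4 ≤ p.length)
    {a b c : W} (h1 : H.Adj a b) (h2 : H.Adj a c) (h3 : H.Adj b c) : False := by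
  have hab := h1.ne
  have hac := h2.ne
  have hbc := h3.ne
  have h4 : (Walk.cons h1 (Walk.cons h3 (Walk.cons h2.symm Walk.nil))).IsCycle := by
    rw [Walk.cons_isCycle_iff]
    constructor
    · simp [Walk.cons_isPath_iff, hab.symm, hac.symm, hbc]
    · simp [hab, hac, hbc, hab.symm, hac.symm, hbc.symm]
  have := hg _ _ h4
  simp at this

/-- The setting: girth at least `4`, and `ρ` is a perfect matching of the neighbours of `none`. -/
structure Set0 (H : SimpleGraph (Option V)) (ρ : Finset (Sym2 V)) : Prop where
  g4 : ∀ (u : Option V) (p : H.Walk u u), p.IsCycle → 4 ≤ p.length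
  nd : ∀ e ∈ ρ, ¬ e.IsDiag
  mem : ∀ e ∈ ρ, ∀ v ∈ e, H.Adj none (some v)
  ex : ∀ v : V, H.Adj none (some v) → ∃ e ∈ ρ, v ∈ e
  un : ∀ e ∈ ρ, ∀ f ∈ ρ, ∀ v, v ∈ e → v ∈ f → e = f

namespace Set0

variable {H : SimpleGraph (Option V)} {ρ : Finset (Sym2 V)}

theorem no_adj (s : Set0 H ρ) {u v : V} (h1 : H.Adj none (some u)) (h2 : H.Adj none (some v)) :
    ¬ H.Adj (some u) (some v) := fun h3 => no_triangle s.g4 h1 h2 h3

theorem ins_del (s : Set0 H ρ) : ins (del H (ρ : Set (Sym2 V))) (ρ : Set (Sym2 V)) = H := by
  ext x y
  cases x with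
  | none =>
    cases y with
    | none => simp
    | some v =>
      rw [ins_none_some]
      constructor
      · rintro ⟨e, he, hv⟩
        exact s.mem e (by simpa using he) v hv
      · intro h
        obtain ⟨e, he, hv⟩ := s.ex v h
        exact ⟨e, by simpa using he, hv⟩
  | some u =>
    cases y with
    | none =>
      rw [ins_some_none, SimpleGraph.adj_comm]
      constructor
      · rintro ⟨e, he, hv⟩
        exact s.mem e (by simpa using he) u hv
      · intro h
        obtain ⟨e, he, hv⟩ := s.ex u h
        exact ⟨e, by simpa using he, hv⟩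
    | some v =>
      rw [ins_some_some]
      show (H.Adj (some u) (some v) ∨ (s(u, v) ∈ (ρ : Set (Sym2 V)) ∧ u ≠ v)) ∧ s(u, v) ∉ (ρ : Set (Sym2 V)) ↔ _
      constructor
      · rintro ⟨h | h, h'⟩
        · exact h
        · exact absurd h.1 h'
      · intro h
        refine ⟨Or.inl h, fun h' => ?_⟩
        have h'' : s(u, v) ∈ ρ := by simpa using h'
        exact s.no_adj (s.mem _ h'' u (Sym2.mem_mk_left _ _)) (s.mem _ h'' v (Sym2.mem_mk_right _ _)) h

theorem edges (s : Set0 H ρ) : ∀ e ∈ ρ, e ∈ (del H (ρ : Set (Sym2 V))).edgeSet := by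
  intro e he
  have hnd := s.nd e he
  induction e using Sym2.ind with
  | _ a b =>
    rw [SimpleGraph.mem_edgeSet]
    exact Or.inr ⟨by simpa using he, by simpa using hnd⟩

theorem spread (s : Set0 H ρ) : Spread (del H (ρ : Set (Sym2 V))) (ρ : Set (Sym2 V)) := by
  intro e he f hf hne u hu v hv
  have he' : e ∈ ρ := by simpa using he
  have hf' : f ∈ ρ := by simpa using hf
  refine ⟨fun h => hne (s.un e he' f hf' u hu (h ▸ hv)), ?_⟩
  rintro (h | ⟨h, _⟩)
  · exact s.no_adj (s.mem e he' u hu) (s.mem f hf' v hv) h
  · have h' : s(u, v) ∈ ρ := by simpa using h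
    have h1 := s.un e he' _ h' u hu (Sym2.mem_mk_left _ _)
    have h2 := s.un f hf' _ h' v hv (Sym2.mem_mk_right _ _)
    exact hne (h1.trans h2.symm)

/-- A path up to the first end of an added edge. -/
theorem prefix_path (s : Set0 H ρ) {y z : V} (q : (del H (ρ : Set (Sym2 V))).Walk y z) (hq : q.IsPath)
    (hz : H.Adj none (some z)) : ∃ x, H.Adj none (some x) ∧ ∃ q' : (H.comap some).Walk y x,
      q'.IsPath ∧ q'.length ≤ q.length ∧ ∀ a ∈ q'.support, a ∈ q.support := by
  induction q with
  | nil => exact ⟨_, hz, Walk.nil, by simp, by simp, by simp⟩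
  | @cons a b c h r ih =>
    by_cases hρ : s(a, b) ∈ ρ
    · exact ⟨a, s.mem _ hρ a (Sym2.mem_mk_left _ _), Walk.nil, by simp, by simp, by simp⟩
    · rw [Walk.cons_isPath_iff] at hq
      obtain ⟨x, hx, q', h1, h2, h3⟩ := ih hq.1 hz
      have hadj : (H.comap some).Adj a b := by
        rcases h with h | h
        · exact h
        · exact absurd (by simpa using h.1) hρ
      refine ⟨x, hx, Walk.cons hadj q', ?_, ?_, ?_⟩
      · rw [Walk.cons_isPath_iff]
        exact ⟨h1, fun h' => hq.2 (h3 a h')⟩
      · simp only [Walk.length_cons]; omega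
      · intro a' ha'
        rw [Walk.support_cons, List.mem_cons] at ha' ⊢
        rcases ha' with ha' | ha'
        · exact Or.inl ha'
        · exact Or.inr (h3 a' ha')

/-- The girth. -/
theorem girth (s : Set0 H ρ) {g : ℕ} (hH : ∀ (u : Option V) (p : H.Walk u u), p.IsCycle → g + 1 ≤ p.length)
    (x : V) (p : (del H (ρ : Set (Sym2 V))).Walk x x) (hp : p.IsCycle) : g ≤ p.length := by
  let ι : (H.comap some) →g H := ⟨some, fun h => h⟩
  have hι : Function.Injective ι := Option.some_injective V
  by_cases hρ : ∃ e ∈ p.edges, e ∈ ρ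
  · obtain ⟨e, he, heρ⟩ := hρ
    induction e using Sym2.ind with
    | _ u v =>
      obtain ⟨q, hq, hnq, hlen⟩ := cycle_edge p hp he
      have huv : u ≠ v := by simpa using s.nd _ heρ
      cases q with
      | nil => exact absurd rfl huv
      | @cons _ y _ h q1 =>
        rw [Walk.cons_isPath_iff] at hq
        have hvy : s(v, y) ∉ ρ := by
          intro h'
          apply hnq
          rw [Walk.edges_cons, List.mem_cons]
          exact Or.inl (s.un _ heρ _ h' v (Sym2.mem_mk_right _ _) (Sym2.mem_mk_left _ _))
        have hadj : (H.comap some).Adj v y := by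
          rcases h with h | h
          · exact h
          · exact absurd (by simpa using h.1) hvy
        have hu := s.mem _ heρ u (Sym2.mem_mk_left _ _)
        have hv := s.mem _ heρ v (Sym2.mem_mk_right _ _)
        obtain ⟨z, hz, q', h1, h2, h3⟩ := s.prefix_path q1 hq.1 hu
        have hvq' : v ∉ q'.support := fun h' => hq.2 (h3 v h')
        have hzv : z ≠ v := by
          rintro rfl
          exact hvq' (Walk.end_mem_support q')
        let c : (H.comap some).Walk v z := Walk.cons hadj q'
        have hc : c.IsPath := by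
          rw [Walk.cons_isPath_iff]; exact ⟨h1, hvq'⟩
        have hcm : (c.map ι).IsPath := hc.map hι
        have hnone : (none : Option V) ∉ (c.map ι).support := by
          rw [Walk.support_map, List.mem_map]
          rintro ⟨a, _, ha⟩
          exact absurd ha (by simp [ι])
        have hzn : H.Adj (ι z) none := hz.symm
        have hpath : ((c.map ι).concat hzn).IsPath := hcm.concat hnone hzn
        have hcyc : (Walk.cons (show H.Adj none (ι v) from hv) ((c.map ι).concat hzn)).IsCycle := by
          rw [Walk.cons_isCycle_iff]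
          refine ⟨hpath, ?_⟩
          rw [Walk.edges_concat, List.concat_eq_append, List.mem_append]
          rintro (h' | h')
          · exact hnone ((c.map ι).fst_mem_support_of_mem_edges h')
          · rw [List.mem_singleton] at h'
            have h4 : ι v = ι z := Sym2.congr_right.1 (h'.trans Sym2.eq_swap)
            exact hzv (hι h4).symm
        have h5 := hH _ _ hcyc
        rw [Walk.length_cons, Walk.length_concat, Walk.length_map] at h5
        have h6 : c.length = q'.length + 1 := rfl
        rw [Walk.length_cons] at hlen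
        omega
  · push Not at hρ
    have htr : ∀ e ∈ p.edges, e ∈ (H.comap some).edgeSet := by
      intro e he
      have h1 := Walk.edges_subset_edgeSet p he
      have h2 := hρ e he
      induction e using Sym2.ind with
      | _ a b =>
        rw [SimpleGraph.mem_edgeSet] at h1 ⊢
        rcases h1 with h1 | h1
        · exact h1
        · exact absurd (by simpa using h1.1) h2
    have h1 : (p.transfer _ htr).IsCycle := hp.transfer htr
    have h2 : ((p.transfer _ htr).map ι).IsCycle := (Walk.isCycle_map_iff_of_injective hι).2 h1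
    have h3 := hH _ _ h2
    rw [Walk.length_map, Walk.length_transfer] at h3
    omega

theorem reg [Fintype V] (s : Set0 H ρ) {d g : ℕ} (hH : Reg d (g + 1) H) : Reg d g (del H (ρ : Set (Sym2 V))) := by
  refine ⟨fun v => ?_, fun x p hp => s.girth hH.2 x p hp⟩
  rw [← deg_some _ ρ s.edges s.spread v, s.ins_del]
  exact hH.1 (some v)

end Set0

end Pool.Agent.Helper5.T7
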