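import Pool.Agent.Helper5.T7.Cnt

set_option autoImplicit false

/-!
T7 (odd order): the graphs `G` on `V` that are not `(d + 1)`-edge-choosable against the graphs on `Option V` that are not
`d`-edge-choosable.
-/

open Finset

namespace Pool.Agent.Helper5.T7

open Pool.Agent.Helper15.T6 (Reg ChD)

variable {V : Type} [Fintype V]

theorem reg_three {W : Type} [Fintype W] {d g : ℕ} {G : SimpleGraph W} (h : Reg d g G) : Reg d 3 G :=
  ⟨h.1, fun _ _ hp => hp.three_le_length⟩

open Classical in
theorem bad_le {d h g : ℕ} (hd : 2 * h = d) (s q : ℕ)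
    (hs : ∀ G : SimpleGraph V, Reg d g G → s ≤ (SF G h).card * q) :
    {G : SimpleGraph V | Reg d g G ∧ ¬ ChD (d + 1) G}.ncard * s ≤
      {H : SimpleGraph (Option V) | Reg d 3 H ∧ ¬ ChD d H}.ncard * 2 ^ ((d + 1).choose 2) * q := by
  have : Fintype (SimpleGraph V) := Fintype.ofFinite _
  have : Fintype (SimpleGraph (Option V)) := Fintype.ofFinite _
  have e1 : {G : SimpleGraph V | Reg d g G ∧ ¬ ChD (d + 1) G}.ncard =
      (univ.filter (fun G : SimpleGraph V => Reg d g G ∧ ¬ ChD (d + 1) G)).card := by
    rw [← Set.ncard_coe_finset]; congr 1; ext G; simp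
  have e2 : {H : SimpleGraph (Option V) | Reg d 3 H ∧ ¬ ChD d H}.ncard =
      (univ.filter (fun H : SimpleGraph (Option V) => Reg d 3 H ∧ ¬ ChD d H)).card := by
    rw [← Set.ncard_coe_finset]; congr 1; ext G; simp
  rw [e1, e2]
  let N : SimpleGraph (Option V) → Finset V := fun H => univ.filter (fun v => H.Adj none (some v))
  have hN : ∀ H : SimpleGraph (Option V), Reg d 3 H → (N H).card = d := by
    intro H hH
    have h1 := hH.1 none
    rw [← h1]
    have h2 : H.neighborSet none = some '' ((N H : Finset V) : Set V) := by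
      ext x
      rw [SimpleGraph.mem_neighborSet]
      cases x with
      | none => simp
      | some v => simp [N]
    rw [h2, Set.ncard_image_of_injective _ (Option.some_injective V), Set.ncard_coe_finset]
  have hL : (univ.filter (fun G : SimpleGraph V => Reg d g G ∧ ¬ ChD (d + 1) G)).card * s ≤
      ((univ.filter (fun G : SimpleGraph V => Reg d g G ∧ ¬ ChD (d + 1) G)).sigma (fun G => SF G h)).card * q := by
    rw [Finset.card_sigma, Finset.sum_mul]
    exact Finset.card_nsmul_le_sum _ _ _ (fun G hG => hs G (Finset.mem_filter.1 hG).2.1)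
  have hR : ((univ.filter (fun H : SimpleGraph (Option V) => Reg d 3 H ∧ ¬ ChD d H)).sigma
      (fun H => (N H).sym2.powerset)).card =
      (univ.filter (fun H : SimpleGraph (Option V) => Reg d 3 H ∧ ¬ ChD d H)).card * 2 ^ ((d + 1).choose 2) := by
    rw [Finset.card_sigma]
    rw [Finset.sum_const_nat (m := 2 ^ ((d + 1).choose 2))]
    intro H hH
    rw [Finset.card_powerset, Finset.card_sym2, hN H (Finset.mem_filter.1 hH).2.1]
  rw [← hR]
  refine hL.trans (Nat.mul_le_mul_right _ ?_)
  refine Finset.card_le_card_of_injOn (fun p => ⟨ins p.1 (p.2 : Set (Sym2 V)), p.2⟩) ?_ ?_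
  · rintro ⟨G, F⟩ hp
    rw [Finset.mem_coe, Finset.mem_sigma] at hp
    obtain ⟨hG, hF⟩ := hp
    dsimp only at hG hF
    rw [Finset.mem_coe, Finset.mem_sigma]
    dsimp only
    rw [Finset.mem_filter] at hG ⊢
    simp only [SF, Finset.mem_filter, Finset.mem_univ, true_and] at hF
    refine ⟨⟨Finset.mem_univ _, reg_ins G F (reg_three hG.2.1) hF.2.1 hF.2.2 (by rw [hF.1]; exact hd),
      fun hch => hG.2.2 (chD_succ hF.2.2 hch)⟩, ?_⟩
    rw [Finset.mem_powerset]
    intro e he
    rw [Finset.mem_sym2_iff]
    intro v hv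
    simp only [N, Finset.mem_filter, Finset.mem_univ, true_and]
    rw [ins_none_some]
    exact ⟨e, he, hv⟩
  · rintro ⟨G, F⟩ hp ⟨G', F'⟩ hp' heq
    rw [Finset.mem_coe, Finset.mem_sigma] at hp hp'
    dsimp only at hp hp' heq
    have h1 := congrArg Sigma.snd heq
    dsimp only at h1
    subst h1
    have h2 := congrArg Sigma.fst heq
    dsimp only at h2
    have hF := hp.2
    have hF' := hp'.2
    simp only [SF, Finset.mem_filter, Finset.mem_univ, true_and] at hF hF'
    have h3 : G = G' := by
      ext u v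
      by_cases huv : s(u, v) ∈ F
      · exact ⟨fun _ => hF'.2.1 _ huv, fun _ => hF.2.1 _ huv⟩
      · have h4 : (ins G (F : Set (Sym2 V))).Adj (some u) (some v) ↔
            (ins G' (F : Set (Sym2 V))).Adj (some u) (some v) := by rw [h2]
        rw [ins_some_some, ins_some_some] at h4
        have h5 : s(u, v) ∉ (F : Set (Sym2 V)) := by simpa using huv
        tauto
    rw [h3]

end Pool.Agent.Helper5.T7
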