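import Pool.Agent.Helper5.T7.Del

set_option autoImplicit false

/-!
T7 (odd order): the graphs on `Option V` of large girth against the graphs on `V`.
-/

open Finset

namespace Pool.Agent.Helper5.T7

open Pool.Agent.Helper15.T6 (Reg ChD)

theorem exists_pm {V : Type} [DecidableEq V] (h : ℕ) : ∀ N : Finset V, N.card = 2 * h →
    ∃ ρ : Finset (Sym2 V), ρ.card = h ∧ (∀ e ∈ ρ, ¬ e.IsDiag) ∧ (∀ e ∈ ρ, ∀ v ∈ e, v ∈ N) ∧
      (∀ v ∈ N, ∃ e ∈ ρ, v ∈ e) ∧ (∀ e ∈ ρ, ∀ f ∈ ρ, ∀ v, v ∈ e → v ∈ f → e = f) := by
  induction h with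
  | zero =>
    intro N hN
    have : N = ∅ := by simpa using hN
    subst this
    exact ⟨∅, by simp⟩
  | succ h ih =>
    intro N hN
    obtain ⟨a, ha⟩ : N.Nonempty := by rw [← Finset.card_pos]; omega
    have h1 : (N.erase a).card = 2 * h + 1 := by rw [Finset.card_erase_of_mem ha]; omega
    obtain ⟨b, hb⟩ : (N.erase a).Nonempty := by rw [← Finset.card_pos]; omega
    have h2 : ((N.erase a).erase b).card = 2 * h := by rw [Finset.card_erase_of_mem hb]; omega
    obtain ⟨ρ, r1, r2, r3, r4, r5⟩ := ih _ h2
    have hab : a ≠ b := (Finset.ne_of_mem_erase hb).symm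
    have hbN : b ∈ N := Finset.mem_of_mem_erase hb
    have hna : ∀ e ∈ ρ, a ∉ e := fun e he h' => by
      have := r3 e he a h'
      simp at this
    have hnb : ∀ e ∈ ρ, b ∉ e := fun e he h' => by
      have := r3 e he b h'
      simp at this
    have hnew : s(a, b) ∉ ρ := fun h' => hna _ h' (Sym2.mem_mk_left _ _)
    refine ⟨insert s(a, b) ρ, ?_, ?_, ?_, ?_, ?_⟩
    · rw [Finset.card_insert_of_notMem hnew, r1]
    · intro e he
      rcases Finset.mem_insert.1 he with rfl | he
      · simpa using hab
      · exact r2 e he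
    · intro e he v hv
      rcases Finset.mem_insert.1 he with rfl | he
      · rcases Sym2.mem_iff.1 hv with rfl | rfl
        · exact ha
        · exact hbN
      · exact Finset.mem_of_mem_erase (Finset.mem_of_mem_erase (r3 e he v hv))
    · intro v hv
      by_cases hva : v = a
      · exact ⟨_, Finset.mem_insert_self _ _, by rw [hva]; exact Sym2.mem_mk_left _ _⟩
      by_cases hvb : v = b
      · exact ⟨_, Finset.mem_insert_self _ _, by rw [hvb]; exact Sym2.mem_mk_right _ _⟩
      obtain ⟨e, he, hve⟩ := r4 v (Finset.mem_erase.2 ⟨hvb, Finset.mem_erase.2 ⟨hva, hv⟩⟩)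
      exact ⟨e, Finset.mem_insert_of_mem he, hve⟩
    · intro e he f hf v hve hvf
      rcases Finset.mem_insert.1 he with he1 | he1 <;> rcases Finset.mem_insert.1 hf with hf1 | hf1
      · rw [he1, hf1]
      · exfalso
        rw [he1] at hve
        rcases Sym2.mem_iff.1 hve with rfl | rfl
        · exact hna f hf1 hvf
        · exact hnb f hf1 hvf
      · exfalso
        rw [hf1] at hvf
        rcases Sym2.mem_iff.1 hvf with rfl | rfl
        · exact hna e he1 hve
        · exact hnb e he1 hve
      · exact r5 e he1 f hf1 v hve hvf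

variable {V : Type} [Fintype V]

open Classical in
theorem exists_set0 {d h g : ℕ} (hd : 2 * h = d) (hg : 3 ≤ g) (H : SimpleGraph (Option V)) (hH : Reg d (g + 1) H) :
    ∃ ρ : Finset (Sym2 V), ρ.card = h ∧ Set0 H ρ := by
  let N : Finset V := univ.filter (fun v => H.Adj none (some v))
  have hN : N.card = 2 * h := by
    have h1 := hH.1 none
    rw [hd, ← h1]
    have h2 : H.neighborSet none = some '' ((N : Finset V) : Set V) := by
      ext x
      rw [SimpleGraph.mem_neighborSet]
      cases x with
      | none => simp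
      | some v => simp [N]
    rw [h2, Set.ncard_image_of_injective _ (Option.some_injective V), Set.ncard_coe_finset]
  obtain ⟨ρ, r1, r2, r3, r4, r5⟩ := exists_pm h N hN
  refine ⟨ρ, r1, ⟨fun u p hp => ?_, r2, fun e he v hv => ?_, fun v hv => ?_, r5⟩⟩
  · have := hH.2 u p hp
    omega
  · have := r3 e he v hv
    simpa [N] using this
  · exact r4 v (by simpa [N] using hv)

open Classical in
theorem reg_le {d h g : ℕ} (hd : 2 * h = d) (hg : 3 ≤ g) :
    {H : SimpleGraph (Option V) | Reg d (g + 1) H}.ncard ≤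
      {G : SimpleGraph V | Reg d g G}.ncard * (Fintype.card V * h) ^ h := by
  have : Fintype (SimpleGraph V) := Fintype.ofFinite _
  have : Fintype (SimpleGraph (Option V)) := Fintype.ofFinite _
  have e1 : {G : SimpleGraph V | Reg d g G}.ncard = (univ.filter (fun G : SimpleGraph V => Reg d g G)).card := by
    rw [← Set.ncard_coe_finset]; congr 1; ext G; simp
  have e2 : {H : SimpleGraph (Option V) | Reg d (g + 1) H}.ncard =
      (univ.filter (fun H : SimpleGraph (Option V) => Reg d (g + 1) H)).card := by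
    rw [← Set.ncard_coe_finset]; congr 1; ext G; simp
  rw [e1, e2]
  have hm : ∀ G : SimpleGraph V, Reg d g G → (ef G).card = Fintype.card V * h := by
    intro G hG
    have h1 := two_card_ef hG.1
    have h2 : 2 * (Fintype.card V * h) = Fintype.card V * d := by rw [← hd]; ring
    omega
  have hR : ((univ.filter (fun G : SimpleGraph V => Reg d g G)).sigma (fun G => (ef G).powersetCard h)).card ≤
      (univ.filter (fun G : SimpleGraph V => Reg d g G)).card * (Fintype.card V * h) ^ h := by
    rw [Finset.card_sigma]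
    refine (Finset.sum_le_card_nsmul _ _ ((Fintype.card V * h) ^ h) ?_).trans (by rw [smul_eq_mul])
    intro G hG
    rw [Finset.card_powersetCard, hm G (Finset.mem_filter.1 hG).2]
    exact Nat.choose_le_pow _ _
  refine le_trans ?_ hR
  have hch : ∀ H : SimpleGraph (Option V), ∃ ρ : Finset (Sym2 V), Reg d (g + 1) H → ρ.card = h ∧ Set0 H ρ := by
    intro H
    by_cases hH : Reg d (g + 1) H
    · obtain ⟨ρ, h1⟩ := exists_set0 hd hg H hH
      exact ⟨ρ, fun _ => h1⟩
    · exact ⟨∅, fun h' => absurd h' hH⟩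
  choose R hRR using hch
  refine Finset.card_le_card_of_injOn (fun H => ⟨del H ((R H : Finset (Sym2 V)) : Set (Sym2 V)), R H⟩) ?_ ?_
  · intro H hH
    rw [Finset.mem_coe, Finset.mem_filter] at hH
    obtain ⟨r1, r2⟩ := hRR H hH.2
    rw [Finset.mem_coe, Finset.mem_sigma]
    dsimp only
    refine ⟨Finset.mem_filter.2 ⟨Finset.mem_univ _, r2.reg hH.2⟩, ?_⟩
    rw [Finset.mem_powersetCard]
    refine ⟨fun e he => ?_, r1⟩
    simpa [ef] using r2.edges e he
  · intro H hH H' hH' heq
    rw [Finset.mem_coe, Finset.mem_filter] at hH hH'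
    dsimp only at heq
    have h1 := (hRR H hH.2).2.ins_del
    have h2 := (hRR H' hH'.2).2.ins_del
    have h3 := congrArg Sigma.fst heq
    have h4 := congrArg Sigma.snd heq
    dsimp only at h3 h4
    rw [h3, h4, h2] at h1
    exact h1.symm

end Pool.Agent.Helper5.T7
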