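import Pool.Agent.Helper15.T6.Defs

set_option autoImplicit false

/-!
T7: transfer of the properties of graphs along isomorphisms.
-/

open Finset

namespace Pool.Agent.Helper5.T7

open Pool.Agent.Helper15.T6 (Reg ChD)
open SimpleGraph

variable {V W : Type} {G : SimpleGraph V} {H : SimpleGraph W}

theorem reg_iso_aux [Fintype V] [Fintype W] {d g : ℕ} (φ : G ≃g H) (h : Reg d g G) : Reg d g H := by
  refine ⟨fun w => ?_, fun u p hp => ?_⟩
  · have h1 := h.1 (φ.symm w)
    rw [← h1, ← Nat.card_coe_set_eq, ← Nat.card_coe_set_eq]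
    exact Nat.card_congr (φ.symm.mapNeighborSet w)
  · have h1 : (p.map φ.symm.toHom).IsCycle :=
      (Walk.isCycle_map_iff_of_injective φ.symm.injective).2 hp
    have h2 := h.2 _ _ h1
    rwa [Walk.length_map] at h2

theorem reg_iso [Fintype V] [Fintype W] {d g : ℕ} (φ : G ≃g H) : Reg d g G ↔ Reg d g H :=
  ⟨reg_iso_aux φ, reg_iso_aux φ.symm⟩

theorem chD_iso_aux {d : ℕ} (φ : G ≃g H) (h : ChD d G) : ChD d H := by
  intro L hL
  obtain ⟨f, hf1, hf2⟩ := h (fun e => L (φ.mapEdgeSet e)) (fun e => hL _)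
  refine ⟨fun e => f (φ.mapEdgeSet.symm e), fun e => ?_, fun e e' hadj => ?_⟩
  · have := hf1 (φ.mapEdgeSet.symm e)
    rwa [Equiv.apply_symm_apply] at this
  · apply hf2
    rw [lineGraph_adj_iff_exists] at hadj ⊢
    obtain ⟨hne, v, hv, hv'⟩ := hadj
    refine ⟨fun h' => hne (φ.mapEdgeSet.symm.injective h'), φ.symm v, ?_, ?_⟩
    · show φ.symm v ∈ ((e : Sym2 W).map φ.symm)
      exact Sym2.mem_map.2 ⟨v, hv, rfl⟩
    · show φ.symm v ∈ ((e' : Sym2 W).map φ.symm)
      exact Sym2.mem_map.2 ⟨v, hv', rfl⟩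

theorem chD_iso {d : ℕ} (φ : G ≃g H) : ChD d G ↔ ChD d H :=
  ⟨chD_iso_aux φ, chD_iso_aux φ.symm⟩

/-- Counting graphs with a property that is invariant under isomorphisms. -/
theorem ncard_iso (e : V ≃ W) (P : ∀ {U : Type}, SimpleGraph U → Prop)
    (hP : ∀ (G : SimpleGraph V) (H : SimpleGraph W), Nonempty (G ≃g H) → (P G ↔ P H)) :
    {G : SimpleGraph V | P G}.ncard = {H : SimpleGraph W | P H}.ncard := by
  have h1 : {H : SimpleGraph W | P H} = e.simpleGraph '' {G : SimpleGraph V | P G} := by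
    ext H
    rw [Equiv.image_eq_preimage_symm]
    simp only [Set.mem_ofPred_eq, Set.mem_preimage]
    refine (hP _ H ⟨?_⟩).symm
    have := SimpleGraph.Iso.comap e H
    exact this
  rw [h1, Set.ncard_image_of_injective _ e.simpleGraph.injective]

end Pool.Agent.Helper5.T7
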