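import Pool.Agent.Helper5.T7.Pos
import Pool.Agent.Helper5.T7.Inj
import Pool.Agent.Helper5.T7.Iso

set_option autoImplicit false

/-!
T7: almost all `d`-regular graphs of girth at least `g` on an odd number of vertices are `(d + 1)`-edge-choosable
(`d = 2 h`), from the theorem for an even number of vertices.
-/

open Finset Filter Topology

namespace Pool.Agent.Helper5.T7

open Pool.Agent.Helper15.T6 (Reg ChD ST_MAIN6 ST_POSG ST_FIBG ST_GIR1 ST_GIR2)

/-- The inequality for one number of vertices. -/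
theorem one_step (n h g : ℕ) (hg : 3 ≤ g) (hn : 2 * (2 * (2 * h) * (2 * h + 1)) ≤ n) :
    {G : SimpleGraph (Fin n) | Reg (2 * h) g G ∧ ¬ ChD (2 * h + 1) G}.ncard *
        {H : SimpleGraph (Fin (n + 1)) | Reg (2 * h) (g + 1) H}.ncard ≤
      (2 ^ h * 2 ^ ((2 * h + 1).choose 2) * h.factorial) *
        ({G : SimpleGraph (Fin n) | Reg (2 * h) g G}.ncard *
        {H : SimpleGraph (Fin (n + 1)) | Reg (2 * h) 3 H ∧ ¬ ChD (2 * h) H}.ncard) := by
  have t1 : {H : SimpleGraph (Fin (n + 1)) | Reg (2 * h) (g + 1) H}.ncard =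
      {H : SimpleGraph (Option (Fin n)) | Reg (2 * h) (g + 1) H}.ncard := by
    have e := (finSuccEquiv n)
    have h1 : {H : SimpleGraph (Option (Fin n)) | Reg (2 * h) (g + 1) H} =
        e.simpleGraph '' {G : SimpleGraph (Fin (n + 1)) | Reg (2 * h) (g + 1) G} := by
      ext H
      rw [Equiv.image_eq_preimage_symm]
      simp only [Set.mem_ofPred_eq, Set.mem_preimage]
      have φ : e.simpleGraph.symm H ≃g H := SimpleGraph.Iso.comap e H
      exact (reg_iso φ).symm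
    rw [h1, Set.ncard_image_of_injective _ e.simpleGraph.injective]
  have t2 : {H : SimpleGraph (Fin (n + 1)) | Reg (2 * h) 3 H ∧ ¬ ChD (2 * h) H}.ncard =
      {H : SimpleGraph (Option (Fin n)) | Reg (2 * h) 3 H ∧ ¬ ChD (2 * h) H}.ncard := by
    have e := (finSuccEquiv n)
    have h1 : {H : SimpleGraph (Option (Fin n)) | Reg (2 * h) 3 H ∧ ¬ ChD (2 * h) H} =
        e.simpleGraph '' {G : SimpleGraph (Fin (n + 1)) | Reg (2 * h) 3 G ∧ ¬ ChD (2 * h) G} := by
      ext H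
      rw [Equiv.image_eq_preimage_symm]
      simp only [Set.mem_ofPred_eq, Set.mem_preimage]
      have φ : e.simpleGraph.symm H ≃g H := SimpleGraph.Iso.comap e H
      exact (and_congr (reg_iso φ) (not_congr (chD_iso φ))).symm
    rw [h1, Set.ncard_image_of_injective _ e.simpleGraph.injective]
  rw [t1, t2]
  set A := {G : SimpleGraph (Fin n) | Reg (2 * h) g G ∧ ¬ ChD (2 * h + 1) G}.ncard
  set X := {G : SimpleGraph (Fin n) | Reg (2 * h) g G}.ncard
  set B := {H : SimpleGraph (Option (Fin n)) | Reg (2 * h) 3 H ∧ ¬ ChD (2 * h) H}.ncard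
  set Y := {H : SimpleGraph (Option (Fin n)) | Reg (2 * h) (g + 1) H}.ncard
  obtain ⟨m, hm⟩ : ∃ m, m = n * h := ⟨_, rfl⟩
  obtain ⟨C, hC⟩ : ∃ C, C = 2 * (2 * h) * (2 * h + 1) := ⟨_, rfl⟩
  have hY : Y ≤ X * m ^ h := by
    have := reg_le (V := Fin n) (d := 2 * h) (h := h) (g := g) rfl hg
    rw [Fintype.card_fin, ← hm] at this
    exact this
  have hA : A * (m - h * C) ^ h ≤ B * 2 ^ ((2 * h + 1).choose 2) * h.factorial := by
    apply bad_le (V := Fin n) (d := 2 * h) (h := h) (g := g) rfl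
    intro G hG
    have h1 := SF_lower hG.1 h h le_rfl
    have h2 := two_card_ef hG.1
    rw [Fintype.card_fin] at h2
    have h3 : (ef G).card = m := by
      have : 2 * (n * h) = n * (2 * h) := by ring
      rw [hm]; omega
    rw [h3, ← hC] at h1
    exact h1
  have hmm : m ≤ 2 * (m - h * C) := by
    have : 2 * (h * C) ≤ m := by
      rw [hm, hC]
      calc 2 * (h * (2 * (2 * h) * (2 * h + 1))) = h * (2 * (2 * (2 * h) * (2 * h + 1))) := by ring
        _ ≤ h * n := Nat.mul_le_mul_left _ hn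
        _ = n * h := by ring
    omega
  calc A * Y ≤ A * (X * m ^ h) := Nat.mul_le_mul_left _ hY
    _ ≤ A * (X * (2 * (m - h * C)) ^ h) := Nat.mul_le_mul_left _ (Nat.mul_le_mul_left _ (Nat.pow_le_pow_left hmm h))
    _ = 2 ^ h * X * (A * (m - h * C) ^ h) := by rw [mul_pow]; ring
    _ ≤ 2 ^ h * X * (B * 2 ^ ((2 * h + 1).choose 2) * h.factorial) := Nat.mul_le_mul_left _ hA
    _ = _ := by ring

theorem ncard_split {U : Type} [Finite U] (P Q : SimpleGraph U → Prop) :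
    {G | P G ∧ Q G}.ncard + {G | P G ∧ ¬ Q G}.ncard = {G | P G}.ncard := by
  rw [← Set.ncard_union_eq _ (Set.toFinite _) (Set.toFinite _)]
  · congr 1
    ext G
    simp only [Set.mem_union, Set.mem_ofPred_eq]
    tauto
  · rw [Set.disjoint_left]
    rintro G h1 h2
    exact h2.2 h1.2

/-- ODD: almost all `2 h`-regular graphs of girth at least `g` on an odd number of vertices are `(2 h + 1)`-edge-choosable. -/
theorem odd_main (hM : ST_MAIN6) (hP : ST_POSG) (hF : ST_FIBG) (h1 : ST_GIR1) (h2 : ST_GIR2)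
    (h g : ℕ) (hh : 2 ≤ h) (hg : 3 ≤ g) : Tendsto (fun N : ℕ =>
    ({G : SimpleGraph (Fin (2 * N + 1)) | Reg (2 * h) g G ∧ ChD (2 * h + 1) G}.ncard : ℝ) /
      ({G : SimpleGraph (Fin (2 * N + 1)) | Reg (2 * h) g G}.ncard : ℝ)) atTop (𝓝 1) := by
  obtain ⟨c, hc, hpos⟩ := reg_pos hP hF h1 h2 (2 * h) (g + 1) (by omega) (by omega)
  -- the bad proportion on an even number of vertices
  have hbad : Tendsto (fun N : ℕ =>
      ({H : SimpleGraph (Fin (2 * N)) | Reg (2 * h) 3 H ∧ ¬ ChD (2 * h) H}.ncard : ℝ) /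
      ({H : SimpleGraph (Fin (2 * N)) | Reg (2 * h) 3 H}.ncard : ℝ)) atTop (𝓝 0) := by
    have h3 := hM (2 * h) 3 (by omega) le_rfl
    have h4 : Tendsto (fun N : ℕ => 1 - (Set.ncard {G : SimpleGraph (Fin (2 * N)) | Reg (2 * h) 3 G ∧ ChD (2 * h) G} : ℝ) /
      (Set.ncard {G : SimpleGraph (Fin (2 * N)) | Reg (2 * h) 3 G} : ℝ)) atTop (𝓝 (1 - 1)) := h3.const_sub 1
    rw [sub_self] at h4
    refine h4.congr' ?_
    obtain ⟨c', _, hpos'⟩ := reg_pos hP hF h1 h2 (2 * h) 3 (by omega) le_rfl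
    filter_upwards [hpos'] with N hN
    have h5 := ncard_split (U := Fin (2 * N)) (fun G => Reg (2 * h) 3 G) (fun G => ChD (2 * h) G)
    have h6 : (0:ℝ) < ({H : SimpleGraph (Fin (2 * N)) | Reg (2 * h) 3 H}.ncard : ℝ) := by exact_mod_cast hN.1
    rw [eq_div_iff h6.ne', sub_mul, div_mul_cancel₀ _ h6.ne', one_mul, ← h5]
    push_cast
    ring
  have hbad' := hbad.comp (tendsto_add_atTop_nat 1)
  obtain ⟨K, hK⟩ : ∃ K : ℝ, K = ((2 ^ h * 2 ^ ((2 * h + 1).choose 2) * h.factorial : ℕ) : ℝ) := ⟨_, rfl⟩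
  have hlim := hbad'.const_mul (K / c)
  rw [mul_zero] at hlim
  have hpos1 := (tendsto_add_atTop_nat 1).eventually hpos
  have hlarge : ∀ᶠ N : ℕ in atTop, 2 * (2 * (2 * h) * (2 * h + 1)) ≤ 2 * N + 1 := by
    filter_upwards [eventually_ge_atTop (2 * (2 * (2 * h) * (2 * h + 1)))] with N hN
    omega
  -- the bad proportion on an odd number of vertices
  have hodd : Tendsto (fun N : ℕ =>
      ({G : SimpleGraph (Fin (2 * N + 1)) | Reg (2 * h) g G ∧ ¬ ChD (2 * h + 1) G}.ncard : ℝ) /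
      ({G : SimpleGraph (Fin (2 * N + 1)) | Reg (2 * h) g G}.ncard : ℝ)) atTop (𝓝 0) := by
    refine squeeze_zero' (Eventually.of_forall fun N => by positivity) ?_ hlim
    filter_upwards [hpos1, hlarge] with N hN hN'
    have hst := one_step (2 * N + 1) h g hg hN'
    have hst' : ({G : SimpleGraph (Fin (2 * N + 1)) | Reg (2 * h) g G ∧ ¬ ChD (2 * h + 1) G}.ncard : ℝ) *
        ({H : SimpleGraph (Fin (2 * N + 1 + 1)) | Reg (2 * h) (g + 1) H}.ncard : ℝ) ≤
        K * (({G : SimpleGraph (Fin (2 * N + 1)) | Reg (2 * h) g G}.ncard : ℝ) *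
        ({H : SimpleGraph (Fin (2 * N + 1 + 1)) | Reg (2 * h) 3 H ∧ ¬ ChD (2 * h) H}.ncard : ℝ)) := by
      rw [hK]; exact_mod_cast hst
    have e : 2 * (N + 1) = 2 * N + 1 + 1 := by ring
    simp only [Function.comp]
    rw [e] at hN ⊢
    have hreg := reg_le (V := Fin (2 * N + 1)) (d := 2 * h) (h := h) (g := g) rfl hg
    set A : ℝ := ({G : SimpleGraph (Fin (2 * N + 1)) | Reg (2 * h) g G ∧ ¬ ChD (2 * h + 1) G}.ncard : ℝ) with hA
    set X : ℝ := ({G : SimpleGraph (Fin (2 * N + 1)) | Reg (2 * h) g G}.ncard : ℝ) with hX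
    set B : ℝ := ({H : SimpleGraph (Fin (2 * N + 1 + 1)) | Reg (2 * h) 3 H ∧ ¬ ChD (2 * h) H}.ncard : ℝ) with hB
    set Y : ℝ := ({H : SimpleGraph (Fin (2 * N + 1 + 1)) | Reg (2 * h) (g + 1) H}.ncard : ℝ) with hY
    set Z : ℝ := ({H : SimpleGraph (Fin (2 * N + 1 + 1)) | Reg (2 * h) 3 H}.ncard : ℝ) with hZ
    have hA0 : 0 ≤ A := Nat.cast_nonneg _
    have hX0 : 0 ≤ X := Nat.cast_nonneg _
    have hB0 : 0 ≤ B := Nat.cast_nonneg _
    have hZ0 : 0 ≤ Z := Nat.cast_nonneg _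
    have hK0 : 0 ≤ K := by rw [hK]; exact Nat.cast_nonneg _
    rcases hX0.eq_or_lt with h0 | hXp
    · rw [← h0, div_zero]
      positivity
    · rcases hZ0.eq_or_lt with h0 | hZp
      · -- impossible: `Y > 0` and `Y ≤ Z`
        exfalso
        have h7 : {H : SimpleGraph (Fin (2 * N + 1 + 1)) | Reg (2 * h) (g + 1) H} ⊆
            {H : SimpleGraph (Fin (2 * N + 1 + 1)) | Reg (2 * h) 3 H} := fun H hH => reg_three hH
        have h8 := Set.ncard_le_ncard h7 (Set.toFinite _)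
        have h9 : ({H : SimpleGraph (Fin (2 * N + 1 + 1)) | Reg (2 * h) 3 H}.ncard : ℝ) = 0 := h0.symm
        have h10 : {H : SimpleGraph (Fin (2 * N + 1 + 1)) | Reg (2 * h) 3 H}.ncard = 0 := by exact_mod_cast h9
        omega
      · rw [div_mul_div_comm, div_le_div_iff₀ hXp (mul_pos hc hZp)]
        calc A * (c * Z) ≤ A * Y := mul_le_mul_of_nonneg_left hN.2 hA0
          _ ≤ K * (X * B) := hst'
          _ = K * B * X := by ring
  -- conclusion
  have hfin : Tendsto (fun N : ℕ => 1 -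
      ({G : SimpleGraph (Fin (2 * N + 1)) | Reg (2 * h) g G ∧ ¬ ChD (2 * h + 1) G}.ncard : ℝ) /
      ({G : SimpleGraph (Fin (2 * N + 1)) | Reg (2 * h) g G}.ncard : ℝ)) atTop (𝓝 (1 - 0)) := hodd.const_sub 1
  rw [sub_zero] at hfin
  refine hfin.congr' ?_
  filter_upwards [hpos1] with N hN
  have hreg := reg_le (V := Fin (2 * N + 1)) (d := 2 * h) (h := h) (g := g) rfl hg
  have e : 2 * (N + 1) = 2 * N + 1 + 1 := by ring
  rw [e] at hN
  have t1 : {H : SimpleGraph (Fin (2 * N + 1 + 1)) | Reg (2 * h) (g + 1) H}.ncard =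
      {H : SimpleGraph (Option (Fin (2 * N + 1))) | Reg (2 * h) (g + 1) H}.ncard := by
    have e := (finSuccEquiv (2 * N + 1))
    have h1 : {H : SimpleGraph (Option (Fin (2 * N + 1))) | Reg (2 * h) (g + 1) H} =
        e.simpleGraph '' {G : SimpleGraph (Fin (2 * N + 1 + 1)) | Reg (2 * h) (g + 1) G} := by
      ext H
      rw [Equiv.image_eq_preimage_symm]
      simp only [Set.mem_ofPred_eq, Set.mem_preimage]
      have φ : e.simpleGraph.symm H ≃g H := SimpleGraph.Iso.comap e H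
      exact (reg_iso φ).symm
    rw [h1, Set.ncard_image_of_injective _ e.simpleGraph.injective]
  have hXp : 0 < {G : SimpleGraph (Fin (2 * N + 1)) | Reg (2 * h) g G}.ncard := by
    rcases Nat.eq_zero_or_pos ({G : SimpleGraph (Fin (2 * N + 1)) | Reg (2 * h) g G}.ncard) with h0 | h0
    · rw [h0, zero_mul, ← t1] at hreg
      omega
    · exact h0
  have hXp' : (0:ℝ) < ({G : SimpleGraph (Fin (2 * N + 1)) | Reg (2 * h) g G}.ncard : ℝ) := by exact_mod_cast hXp
  have h5 := ncard_split (U := Fin (2 * N + 1)) (fun G => Reg (2 * h) g G) (fun G => ChD (2 * h + 1) G)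
  rw [eq_div_iff hXp'.ne', sub_mul, div_mul_cancel₀ _ hXp'.ne', one_mul, ← h5]
  push_cast
  ring

end Pool.Agent.Helper5.T7
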