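import Pool.Agent.Helper15.T6.Stmts
import Pool.Agent.Helper5.T7.Inj2

set_option autoImplicit false

/-!
T7: number of the regular graphs of large girth, from the T6 statements.
-/

open Finset Filter Topology

namespace Pool.Agent.Helper5.T7

open Pool.Agent.Helper15.T6 (Reg ChD HE Gr NoShort ST_POSG ST_FIBG ST_GIR1 ST_GIR2)
open Pool.Agent.Helper15.T4 (IsPM PM)

open Classical in
theorem card_reg (hF : ST_FIBG) (h1 : ST_GIR1) (h2 : ST_GIR2) (n d g : ℕ) (hg : 3 ≤ g) :
    ((PM (univ : Finset (HE n d))).filter (fun M => NoShort g M)).card =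
      {G : SimpleGraph (Fin n) | Reg d g G}.ncard * d.factorial ^ n := by
  have : Fintype (SimpleGraph (Fin n)) := Fintype.ofFinite _
  have e1 : {G : SimpleGraph (Fin n) | Reg d g G}.ncard = (univ.filter (fun G : SimpleGraph (Fin n) => Reg d g G)).card := by
    rw [← Set.ncard_coe_finset]; congr 1; ext G; simp
  have e2 : (PM (univ : Finset (HE n d))).filter (fun M => NoShort g M) =
      (PM (univ : Finset (HE n d))).filter (fun M => Reg d g (Gr M)) := by
    refine Finset.filter_congr fun M hM => ?_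
    exact ⟨h2 n d g M hg hM, h1 n d g M hM⟩
  rw [e1, e2]
  have e3 : (PM (univ : Finset (HE n d))).filter (fun M => Reg d g (Gr M)) =
      (univ.filter (fun G : SimpleGraph (Fin n) => Reg d g G)).biUnion
        (fun G => (PM (univ : Finset (HE n d))).filter (fun M => Gr M = G)) := by
    ext M
    simp only [Finset.mem_filter, Finset.mem_biUnion, Finset.mem_univ, true_and]
    constructor
    · rintro ⟨h, h'⟩
      exact ⟨Gr M, h', h, rfl⟩
    · rintro ⟨G, hG, h, rfl⟩
      exact ⟨h, hG⟩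
  rw [e3, Finset.card_biUnion]
  · rw [Finset.sum_const_nat (m := d.factorial ^ n)]
    intro G hG
    exact hF n d G (Finset.mem_filter.1 hG).2.1
  · intro G _ G' _ hne
    rw [Function.onFun, Finset.disjoint_left]
    intro M hM hM'
    rw [Finset.mem_filter] at hM hM'
    exact hne (hM.2.symm.trans hM'.2)

theorem pm_pos {H : Type} [Fintype H] (k : ℕ) (hk : Fintype.card H = 2 * k) : 0 < (PM (univ : Finset H)).card := by
  classical
  obtain ⟨ρ, r1, r2, r3, r4, r5⟩ := exists_pm k (univ : Finset H) (by rw [Finset.card_univ, hk])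
  rw [Finset.card_pos]
  refine ⟨ρ, ?_⟩
  rw [PM, Finset.mem_filter]
  refine ⟨Finset.mem_univ _, r2, r3, fun h _ => ?_⟩
  obtain ⟨e, he, hh⟩ := r4 h (Finset.mem_univ _)
  exact ⟨e, ⟨he, hh⟩, fun f hf => r5 f hf.1 e he h hf.2 hh⟩

/-- A positive proportion of the regular graphs has large girth. -/
theorem reg_pos (hP : ST_POSG) (hF : ST_FIBG) (h1 : ST_GIR1) (h2 : ST_GIR2) (d g : ℕ) (hd : 3 ≤ d) (hg : 3 ≤ g) :
    ∃ c : ℝ, 0 < c ∧ ∀ᶠ N : ℕ in atTop,
      0 < {G : SimpleGraph (Fin (2 * N)) | Reg d g G}.ncard ∧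
      c * ({G : SimpleGraph (Fin (2 * N)) | Reg d 3 G}.ncard : ℝ) ≤
        ({G : SimpleGraph (Fin (2 * N)) | Reg d g G}.ncard : ℝ) := by
  classical
  obtain ⟨c, hc, hev⟩ := hP d g hd
  refine ⟨c, hc, ?_⟩
  filter_upwards [hev] with N hN
  have hpm : 0 < (PM (univ : Finset (HE (2 * N) d))).card := by
    apply pm_pos (N * d)
    simp [Fintype.card_prod]
    ring
  have hpm' : (0:ℝ) < ((PM (univ : Finset (HE (2 * N) d))).card : ℝ) := by exact_mod_cast hpm
  have a1 : (((PM (univ : Finset (HE (2 * N) d))).filter (fun M => NoShort g M)).card : ℝ) =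
      ({G : SimpleGraph (Fin (2 * N)) | Reg d g G}.ncard : ℝ) * (d.factorial : ℝ) ^ (2 * N) := by
    rw [card_reg hF h1 h2 _ _ _ hg]; push_cast; ring
  have a2 : (((PM (univ : Finset (HE (2 * N) d))).filter (fun M => NoShort 3 M)).card : ℝ) =
      ({G : SimpleGraph (Fin (2 * N)) | Reg d 3 G}.ncard : ℝ) * (d.factorial : ℝ) ^ (2 * N) := by
    rw [card_reg hF h1 h2 _ _ _ le_rfl]; push_cast; ring
  have a3 : (((PM (univ : Finset (HE (2 * N) d))).filter (fun M => NoShort 3 M)).card : ℝ) ≤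
      ((PM (univ : Finset (HE (2 * N) d))).card : ℝ) := by
    exact_mod_cast Finset.card_filter_le _ _
  have hf : (0:ℝ) < (d.factorial : ℝ) ^ (2 * N) := by positivity
  have hN' : c * ((PM (univ : Finset (HE (2 * N) d))).card : ℝ) ≤
      ({G : SimpleGraph (Fin (2 * N)) | Reg d g G}.ncard : ℝ) * (d.factorial : ℝ) ^ (2 * N) := by
    rw [← a1]
    convert hN
  constructor
  · by_contra h0
    have h0' : {G : SimpleGraph (Fin (2 * N)) | Reg d g G}.ncard = 0 := by omega
    rw [h0'] at hN'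
    have : 0 < c * ((PM (univ : Finset (HE (2 * N) d))).card : ℝ) := mul_pos hc hpm'
    simp at hN'
    linarith
  · have h3 : c * ({G : SimpleGraph (Fin (2 * N)) | Reg d 3 G}.ncard : ℝ) * (d.factorial : ℝ) ^ (2 * N) ≤
        ({G : SimpleGraph (Fin (2 * N)) | Reg d g G}.ncard : ℝ) * (d.factorial : ℝ) ^ (2 * N) := by
      calc _ = c * (({G : SimpleGraph (Fin (2 * N)) | Reg d 3 G}.ncard : ℝ) * (d.factorial : ℝ) ^ (2 * N)) := by ring
        _ ≤ c * ((PM (univ : Finset (HE (2 * N) d))).card : ℝ) := by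
            rw [← a2]; exact mul_le_mul_of_nonneg_left a3 hc.le
        _ ≤ _ := hN'
    exact le_of_mul_le_mul_right h3 hf

end Pool.Agent.Helper5.T7
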