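import Pool.Agent.Helper5.T7.Odd

set_option autoImplicit false

/-!
T7: the list edge colouring conjecture for one graph of odd order, and the theorem for all orders.
-/

open Finset Filter Topology

namespace Pool.Agent.Helper5.T7

open Pool.Agent.Helper15.T6 (Reg ChD ST_MAIN6 ST_POSG ST_FIBG ST_GIR1 ST_GIR2 ST_WRAP)

/-- `G` satisfies the list edge colouring conjecture: for every `k` the edges can be properly coloured with `k` colours if
and only if they can be properly coloured from any lists with at least `k` colours. -/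
def LEC {V : Type} (G : SimpleGraph V) : Prop :=
  ∀ k : ℕ, G.lineGraph.Colorable k ↔ ∀ L : G.edgeSet → Finset ℕ, (∀ e, k ≤ (L e).card) →
    ∃ f : G.edgeSet → ℕ, (∀ e, f e ∈ L e) ∧ ∀ e e', G.lineGraph.Adj e e' → f e ≠ f e'

open Classical in
/-- Regular graphs of odd order and positive degree are overfull. -/
theorem overfull {V : Type} [Fintype V] {d k : ℕ} {G : SimpleGraph V} (hd : 1 ≤ d) (hodd : Odd (Fintype.card V))
    (hreg : ∀ v, (G.neighborSet v).ncard = d) (hk : G.lineGraph.Colorable k) : d + 1 ≤ k := by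
  obtain ⟨C⟩ := hk
  -- the colour classes
  let cl : Fin k → Finset (Sym2 V) := fun c => (ef G).filter (fun e => ∃ h : e ∈ G.edgeSet, C ⟨e, h⟩ = c)
  have hcl : ∀ c, 2 * (cl c).card ≤ Fintype.card V - 1 := by
    intro c
    have h1 : {v : V | ∃ e ∈ cl c, v ∈ e}.ncard = 2 * (cl c).card := by
      apply ncard_cov
      · intro e he
        have := (Finset.mem_filter.1 he).1
        exact G.not_isDiag_of_mem_edgeSet (by simpa [ef] using this)
      · intro e he f hf hne u hu huf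
        obtain ⟨h1, h2⟩ := (Finset.mem_filter.1 he).2
        obtain ⟨h3, h4⟩ := (Finset.mem_filter.1 hf).2
        have hadj : G.lineGraph.Adj ⟨e, h1⟩ ⟨f, h3⟩ := by
          rw [SimpleGraph.lineGraph_adj_iff_exists]
          exact ⟨fun h' => hne (congrArg Subtype.val h'), u, hu, huf⟩
        exact C.valid hadj (h2.trans h4.symm)
    have h2 : {v : V | ∃ e ∈ cl c, v ∈ e}.ncard ≤ Fintype.card V := by
      have := Set.ncard_le_ncard (Set.subset_univ {v : V | ∃ e ∈ cl c, v ∈ e}) (Set.toFinite _)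
      rwa [Set.ncard_univ, Nat.card_eq_fintype_card] at this
    rw [h1] at h2
    obtain ⟨r, hr⟩ := hodd
    omega
  have hsum : (ef G).card ≤ ∑ c : Fin k, (cl c).card := by
    rw [← Finset.card_biUnion]
    · apply Finset.card_le_card
      intro e he
      rw [Finset.mem_biUnion]
      have h1 : e ∈ G.edgeSet := by simpa [ef] using he
      exact ⟨C ⟨e, h1⟩, Finset.mem_univ _, Finset.mem_filter.2 ⟨he, h1, rfl⟩⟩
    · intro c _ c' _ hne
      rw [Function.onFun, Finset.disjoint_left]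
      intro e he he'
      obtain ⟨h1, h2⟩ := (Finset.mem_filter.1 he).2
      obtain ⟨h3, h4⟩ := (Finset.mem_filter.1 he').2
      exact hne (h2.symm.trans h4)
  have h2 : 2 * ∑ c : Fin k, (cl c).card ≤ k * (Fintype.card V - 1) := by
    rw [Finset.mul_sum]
    refine (Finset.sum_le_card_nsmul _ _ _ (fun c _ => hcl c)).trans ?_
    rw [Finset.card_univ, Fintype.card_fin, smul_eq_mul]
  have h3 := two_card_ef hreg
  have h4 : Fintype.card V * d ≤ k * (Fintype.card V - 1) := by omega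
  by_contra hlt
  have h5 : k ≤ d := by omega
  obtain ⟨r, hr⟩ := hodd
  rw [hr] at h4
  have h6 : (2 * r + 1) * d ≤ k * (2 * r) := by simpa using h4
  have h7 : k * (2 * r) ≤ d * (2 * r) := Nat.mul_le_mul_right _ h5
  nlinarith

/-- WRAP for an odd number of vertices. -/
theorem wrap_odd (V : Type) [Fintype V] (d : ℕ) (G : SimpleGraph V) (hd : 1 ≤ d) (hodd : Odd (Fintype.card V))
    (hreg : ∀ v, (G.neighborSet v).ncard = d) (hch : ChD (d + 1) G) (k : ℕ) :
    (G.lineGraph.Colorable k ↔ d + 1 ≤ k) ∧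
    ((∀ L : G.edgeSet → Finset ℕ, (∀ e, k ≤ (L e).card) →
      ∃ f : G.edgeSet → ℕ, (∀ e, f e ∈ L e) ∧ ∀ e e', G.lineGraph.Adj e e' → f e ≠ f e') ↔ d + 1 ≤ k) := by
  have h1 : G.lineGraph.Colorable k → d + 1 ≤ k := overfull hd hodd hreg
  have h2 : d + 1 ≤ k → (∀ L : G.edgeSet → Finset ℕ, (∀ e, k ≤ (L e).card) →
      ∃ f : G.edgeSet → ℕ, (∀ e, f e ∈ L e) ∧ ∀ e e', G.lineGraph.Adj e e' → f e ≠ f e') :=
    fun hk L hL => hch L (fun e => hk.trans (hL e))
  have h3 : (∀ L : G.edgeSet → Finset ℕ, (∀ e, k ≤ (L e).card) →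
      ∃ f : G.edgeSet → ℕ, (∀ e, f e ∈ L e) ∧ ∀ e e', G.lineGraph.Adj e e' → f e ≠ f e') →
      G.lineGraph.Colorable k := by
    intro h
    obtain ⟨f, hf1, hf2⟩ := h (fun _ => Finset.range k) (fun _ => by simp)
    refine ⟨SimpleGraph.Coloring.mk (fun e => ⟨f e, by simpa using hf1 e⟩) ?_⟩
    intro e e' hadj h'
    exact hf2 e e' hadj (by simpa using h')
  exact ⟨⟨h1, fun hk => h3 (h2 hk)⟩, ⟨fun h => h1 (h3 h), h2⟩⟩

theorem lec_odd {V : Type} [Fintype V] {d g : ℕ} {G : SimpleGraph V} (hd : 1 ≤ d) (hodd : Odd (Fintype.card V))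
    (hreg : Reg d g G) (hch : ChD (d + 1) G) : LEC G := fun k => by
  have := wrap_odd V d G hd hodd hreg.1 hch k
  rw [this.1, this.2]

theorem lec_even (hW : ST_WRAP) {V : Type} [Fintype V] [Nonempty V] {d g : ℕ} {G : SimpleGraph V}
    (hreg : Reg d g G) (hch : ChD d G) : LEC G := fun k => by
  have := hW V d g G hreg hch k
  rw [this.1, this.2]

/-- Almost all regular graphs satisfy the list edge colouring conjecture. -/
theorem lec_main (hM : ST_MAIN6) (hP : ST_POSG) (hF : ST_FIBG) (h1 : ST_GIR1) (h2 : ST_GIR2) (hW : ST_WRAP)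
    (d g : ℕ) (hd : 3 ≤ d) (hg : 3 ≤ g) (ε : ℝ) (hε : 0 < ε) : ∃ n₀ : ℕ, ∀ n : ℕ, n₀ ≤ n → Even (n * d) →
    0 < {G : SimpleGraph (Fin n) | Reg d g G}.ncard ∧
    (1 - ε) * ({G : SimpleGraph (Fin n) | Reg d g G}.ncard : ℝ) ≤
      ({G : SimpleGraph (Fin n) | Reg d g G ∧ LEC G}.ncard : ℝ) := by
  -- generic step
  have gen : ∀ (n D : ℕ), 1 - ε < ({G : SimpleGraph (Fin n) | Reg d g G ∧ ChD D G}.ncard : ℝ) /
      ({G : SimpleGraph (Fin n) | Reg d g G}.ncard : ℝ) → 0 < ({G : SimpleGraph (Fin n) | Reg d g G}.ncard) →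
      (∀ G : SimpleGraph (Fin n), Reg d g G → ChD D G → LEC G) →
      (1 - ε) * ({G : SimpleGraph (Fin n) | Reg d g G}.ncard : ℝ) ≤
      ({G : SimpleGraph (Fin n) | Reg d g G ∧ LEC G}.ncard : ℝ) := by
    intro n D hr hpos himp
    have hpos' : (0:ℝ) < ({G : SimpleGraph (Fin n) | Reg d g G}.ncard : ℝ) := by exact_mod_cast hpos
    rw [lt_div_iff₀ hpos'] at hr
    refine hr.le.trans ?_
    have : {G : SimpleGraph (Fin n) | Reg d g G ∧ ChD D G} ⊆ {G : SimpleGraph (Fin n) | Reg d g G ∧ LEC G} :=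
      fun G hG => ⟨hG.1, himp G hG.1 hG.2⟩
    exact_mod_cast Set.ncard_le_ncard this (Set.toFinite _)
  have posq : ∀ a b : ℝ, 1 - min ε (1 / 2) < a / b → 0 ≤ b → 0 < b := by
    intro a b h hb
    rcases hb.eq_or_lt with h0 | h0
    · rw [← h0, div_zero] at h
      have := min_le_right ε (1 / 2)
      linarith
    · exact h0
  have hε' : 0 < min ε (1 / 2) := lt_min hε (by norm_num)
  have hle : min ε (1 / 2) ≤ ε := min_le_left _ _
  -- even orders
  have he : ∀ᶠ N : ℕ in atTop, 0 < {G : SimpleGraph (Fin (2 * N)) | Reg d g G}.ncard ∧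
    (1 - ε) * ({G : SimpleGraph (Fin (2 * N)) | Reg d g G}.ncard : ℝ) ≤
      ({G : SimpleGraph (Fin (2 * N)) | Reg d g G ∧ LEC G}.ncard : ℝ) := by
    have h3 := (hM d g hd hg).eventually (lt_mem_nhds (show 1 - min ε (1 / 2) < 1 by linarith))
    filter_upwards [h3, eventually_ge_atTop 1] with N hN hN1
    have hpos := posq _ _ hN (Nat.cast_nonneg _)
    have hpos' : 0 < {G : SimpleGraph (Fin (2 * N)) | Reg d g G}.ncard := by exact_mod_cast hpos
    have : Nonempty (Fin (2 * N)) := ⟨⟨0, by omega⟩⟩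
    exact ⟨hpos', gen (2 * N) d (by linarith) hpos' (fun G hG hch => lec_even hW hG hch)⟩
  -- odd orders
  have ho : ∀ᶠ N : ℕ in atTop, Even d → 0 < {G : SimpleGraph (Fin (2 * N + 1)) | Reg d g G}.ncard ∧
    (1 - ε) * ({G : SimpleGraph (Fin (2 * N + 1)) | Reg d g G}.ncard : ℝ) ≤
      ({G : SimpleGraph (Fin (2 * N + 1)) | Reg d g G ∧ LEC G}.ncard : ℝ) := by
    by_cases hde : Even d
    · obtain ⟨h, hh⟩ := hde
      have hd2 : d = 2 * h := by omega
      have h3 := (odd_main hM hP hF h1 h2 h g (by omega) hg).eventually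
        (lt_mem_nhds (show 1 - min ε (1 / 2) < 1 by linarith))
      rw [← hd2] at h3
      filter_upwards [h3] with N hN _
      have hpos := posq _ _ hN (Nat.cast_nonneg _)
      have hpos' : 0 < {G : SimpleGraph (Fin (2 * N + 1)) | Reg d g G}.ncard := by exact_mod_cast hpos
      refine ⟨hpos', gen (2 * N + 1) (d + 1) (by linarith) hpos' (fun G hG hch => ?_)⟩
      exact lec_odd (by omega) (by rw [Fintype.card_fin]; exact ⟨N, rfl⟩) hG hch
    · exact Eventually.of_forall fun N h' => absurd h' hde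
  obtain ⟨a, ha⟩ := eventually_atTop.1 he
  obtain ⟨b, hb⟩ := eventually_atTop.1 ho
  refine ⟨2 * a + 2 * b + 1, fun n hn hnd => ?_⟩
  rcases Nat.even_or_odd' n with ⟨N, hN | hN⟩
  · rw [hN]
    exact ha N (by omega)
  · rw [hN] at hnd ⊢
    have hde : Even d := by
      rcases Nat.even_mul.1 hnd with h' | h'
      · exact absurd h' (by simp [parity_simps])
      · exact h'
    exact hb N (by omega) hde

end Pool.Agent.Helper5.T7
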